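import Pool.Agent.W_be22fd_h78.Stmts2

/-!
Integrability of the densities of a potential and the two elementary inequalities used in the
summation lemma.
-/

namespace Pool.Agent.W_be22fd_h63

open MeasureTheory Pool.Agent.W_be22fd_h78

lemma pk_pos {h : ℝ} (hh : 0 < h) (s : ℝ) : 0 < pk h s := by
  unfold pk
  positivity

lemma pk_meas (h : ℝ) : Measurable (pk h) := by
  unfold pk
  fun_prop

/-- the Poisson kernel is dominated by `C / (1 + t ^ 2)`, uniformly for bounded `x` -/
lemma pk_le {h : ℝ} (hh : 0 < h) (R : ℝ) : ∃ C, 0 ≤ C ∧ ∀ x t : ℝ, |x| ≤ R →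
    pk h (x - t) ≤ C / (1 + t ^ 2) := by
  refine ⟨h / Real.pi * ((1 + 2 * R ^ 2) / h ^ 2 + 2), by positivity, ?_⟩
  intro x t hx
  have hx2 : x ^ 2 ≤ R ^ 2 := by
    have := abs_le.1 hx
    nlinarith
  have hpi := Real.pi_pos
  unfold pk
  rw [div_le_div_iff₀ (by positivity) (by positivity)]
  have key : 1 + t ^ 2 ≤ ((1 + 2 * R ^ 2) / h ^ 2 + 2) * ((x - t) ^ 2 + h ^ 2) := by
    have e1 : ((1 + 2 * R ^ 2) / h ^ 2 + 2) * ((x - t) ^ 2 + h ^ 2) =
        (1 + 2 * R ^ 2) + (1 + 2 * R ^ 2) / h ^ 2 * (x - t) ^ 2 + 2 * (x - t) ^ 2 + 2 * h ^ 2 := by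
      field_simp
      ring
    rw [e1]
    have h1 : 0 ≤ (1 + 2 * R ^ 2) / h ^ 2 * (x - t) ^ 2 := by positivity
    nlinarith [sq_nonneg (x - t - x), sq_nonneg (2 * x - t), sq_nonneg h]
  have e2 : h / Real.pi * ((1 + 2 * R ^ 2) / h ^ 2 + 2) * (Real.pi * ((x - t) ^ 2 + h ^ 2)) =
      h * (((1 + 2 * R ^ 2) / h ^ 2 + 2) * ((x - t) ^ 2 + h ^ 2)) := by
    field_simp
  rw [e2]
  exact mul_le_mul_of_nonneg_left key hh.le

lemma PP_meas {h : ℝ} {u : ℝ → ℝ} (hu : Measurable u) : Measurable (PP h u) := by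
  have : StronglyMeasurable (Function.uncurry fun x t => pk h (x - t) * u t) := by
    apply Measurable.stronglyMeasurable
    have := pk_meas h
    fun_prop
  exact this.integral_prod_right.measurable

lemma PP_bdd {h : ℝ} (hh : 0 < h) {u : ℝ → ℝ} (ha : Adm u) (R : ℝ) :
    ∃ B, ∀ x, |x| ≤ R → |PP h u x| ≤ B := by
  obtain ⟨C, hC, hpk⟩ := pk_le hh R
  refine ⟨∫ t, C * |u t / (1 + t ^ 2)|, fun x hx => ?_⟩
  unfold PP
  rw [← Real.norm_eq_abs]
  apply norm_integral_le_of_norm_le
  · exact (ha.norm).const_mul C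
  · apply Filter.Eventually.of_forall
    intro t
    rw [norm_mul, Real.norm_eq_abs, Real.norm_eq_abs, abs_of_pos (pk_pos hh _), abs_div,
      abs_of_pos (by positivity : (0 : ℝ) < 1 + t ^ 2)]
    have h1 := hpk x t hx
    have h2 : pk h (x - t) * |u t| ≤ C / (1 + t ^ 2) * |u t| :=
      mul_le_mul_of_nonneg_right h1 (abs_nonneg _)
    refine h2.trans (le_of_eq ?_)
    ring

lemma u_intOn {u : ℝ → ℝ} (ha : Adm u) (a b : ℝ) : IntegrableOn u (Set.Icc a b) := by
  have h1 : IntegrableOn (fun t => u t / (1 + t ^ 2)) (Set.Icc a b) := ha.integrableOn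
  have h2 : IntegrableOn (fun t => (1 + t ^ 2) * (u t / (1 + t ^ 2))) (Set.Icc a b) := by
    apply h1.continuousOn_mul
    · fun_prop
    · exact isCompact_Icc
  refine h2.congr_fun ?_ measurableSet_Icc
  intro t _
  have : (0 : ℝ) < 1 + t ^ 2 := by positivity
  simp only
  field_simp

lemma dens_intOn_Icc {h : ℝ} (hh : 0 < h) {u : ℝ → ℝ} (hu : Measurable u) (ha : Adm u)
    (a b : ℝ) : IntegrableOn (dens h u) (Set.Icc a b) := by
  have h1 : IntegrableOn (PP h u) (Set.Icc a b) := by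
    obtain ⟨B, hB⟩ := PP_bdd hh ha (max |a| |b|)
    apply Measure.integrableOn_of_bounded (M := B)
    · exact measure_Icc_lt_top.ne
    · exact (PP_meas hu).aestronglyMeasurable
    · rw [ae_restrict_iff' measurableSet_Icc]
      apply Filter.Eventually.of_forall
      intro x hx
      rw [Real.norm_eq_abs]
      apply hB
      exact abs_le_max_abs_abs hx.1 hx.2
  exact h1.sub (u_intOn ha a b)

lemma dens_intOn {h : ℝ} (hh : 0 < h) {u : ℝ → ℝ} (hu : Measurable u) (ha : Adm u)
    {S : Set ℝ} (hS : Bornology.IsBounded S) : IntegrableOn (dens h u) S := by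
  obtain ⟨R, hR⟩ := hS.subset_closedBall 0
  rw [Real.closedBall_eq_Icc] at hR
  exact (dens_intOn_Icc hh hu ha _ _).mono_set hR

lemma dens_meas {h : ℝ} {u : ℝ → ℝ} (hu : Measurable u) : Measurable (dens h u) :=
  (PP_meas hu).sub hu

/-- a bounded measurable function with bounded support times the density is integrable -/
lemma mul_dens_int {h : ℝ} (hh : 0 < h) {u : ℝ → ℝ} (hu : Measurable u) (ha : Adm u)
    {p : ℝ → ℝ} {C R : ℝ} (hp : Measurable p) (h0 : ∀ t, 0 ≤ p t) (hC : ∀ t, p t ≤ C)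
    (hR : ∀ t, R < |t| → p t = 0) : Integrable (fun t => p t * dens h u t) := by
  have h1 : IntegrableOn (fun t => p t * dens h u t) (Set.Icc (-R) R) := by
    apply (dens_intOn_Icc hh hu ha (-R) R).bdd_mul (c := C)
    · exact hp.aestronglyMeasurable
    · apply Filter.Eventually.of_forall
      intro t
      rw [Real.norm_eq_abs, abs_of_nonneg (h0 t)]
      exact hC t
  rw [← integrableOn_univ]
  apply h1.of_forall_sdiff_eq_zero MeasurableSet.univ
  intro t ht
  have : R < |t| := by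
    by_contra hcon
    push Not at hcon
    exact ht.2 (abs_le.1 hcon)
  rw [hR t this, zero_mul]

lemma fat_meas (e a b : ℝ) : MeasurableSet (fat e a b) := measurableSet_Icc

lemma fat_bdd (e a b : ℝ) : Bornology.IsBounded (fat e a b) := Metric.isBounded_Icc _ _

/-- the lower estimate for one test function -/
lemma test_lower {h δ N C : ℝ} (hh : 0 < h) (hδ : 0 ≤ δ) {u v p : ℝ → ℝ} {T S : Set ℝ}
    (ht : T_transfer) (hu : Pot u) (hv : Pot v) (hp : IsTest h p T C) (hle : ∀ᵐ t, v t ≤ u t)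
    (heq : ∀ᵐ t, t ∈ T → v t = u t) (hS : MeasurableSet S) (hSb : Bornology.IsBounded S)
    (hpS : ∀ t ∈ S, δ ≤ p t) (hN : N ≤ mu h v S) :
    δ * N * (Real.pi * h) ≤ ∫ t, p t * dens h u t := by
  have hπ : 0 < Real.pi * h := mul_pos Real.pi_pos hh
  obtain ⟨R, hR⟩ := hp.comp
  refine le_trans ?_ (ht h C p u v T hh hu.adm hv.adm hp hle heq)
  have hint := mul_dens_int hh hv.meas hv.adm hp.meas hp.nonneg hp.le hR
  have hnn := hv.dens_nonneg h hh
  have h1 : ∫ t in S, p t * dens h v t ≤ ∫ t, p t * dens h v t := by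
    apply setIntegral_le_integral hint
    filter_upwards [hnn] with t ht'
    exact mul_nonneg (hp.nonneg t) ht'
  have h2 : ∫ t in S, δ * dens h v t ≤ ∫ t in S, p t * dens h v t := by
    apply setIntegral_mono_on_ae
    · exact (dens_intOn hh hv.meas hv.adm hSb).const_mul δ
    · exact hint.integrableOn
    · exact hS
    · filter_upwards [hnn] with t ht' htS
      exact mul_le_mul_of_nonneg_right (hpS t htS) ht'
  have h3 : ∫ t in S, δ * dens h v t = δ * ∫ t in S, dens h v t := integral_const_mul _ _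
  have h4 : N * (Real.pi * h) ≤ ∫ t in S, dens h v t := by
    unfold mu at hN
    rwa [le_div_iff₀ hπ] at hN
  calc δ * N * (Real.pi * h) = δ * (N * (Real.pi * h)) := by ring
    _ ≤ δ * ∫ t in S, dens h v t := mul_le_mul_of_nonneg_left h4 hδ
    _ = ∫ t in S, δ * dens h v t := h3.symm
    _ ≤ ∫ t, p t * dens h v t := h2.trans h1

/-- the upper estimate for a family of test functions with bounded overlap -/
lemma tests_upper {h C' m : ℝ} (hh : 0 < h) {u : ℝ → ℝ} (hu : Pot u) {I : Finset ℕ}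
    {p : ℕ → ℝ → ℝ} {W : Set ℝ} (hW : MeasurableSet W) (hWb : Bornology.IsBounded W)
    (hC' : 0 < C') (hpm : ∀ k ∈ I, Measurable (p k)) (hp0 : ∀ k ∈ I, ∀ t, 0 ≤ p k t)
    (hpC : ∀ k ∈ I, ∃ C, ∀ t, p k t ≤ C) (hsum : ∀ t, ∑ k ∈ I, p k t ≤ C')
    (hpW : ∀ k ∈ I, ∀ t, t ∉ W → p k t = 0)
    (hm : ∀ k ∈ I, m * (Real.pi * h) ≤ ∫ t, p k t * dens h u t) :
    m * I.card / C' ≤ mu h u W := by
  have hπ : 0 < Real.pi * h := mul_pos Real.pi_pos hh
  obtain ⟨R, hR⟩ := hWb.subset_closedBall 0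
  rw [Real.closedBall_eq_Icc] at hR
  have hR' : ∀ k ∈ I, ∀ t, R < |t| → p k t = 0 := by
    intro k hk t ht
    apply hpW k hk
    intro htW
    have := hR htW
    rw [Set.mem_Icc] at this
    have : |t| ≤ R := abs_le.2 ⟨by linarith [this.1], by linarith [this.2]⟩
    linarith
  have hint : ∀ k ∈ I, Integrable (fun t => p k t * dens h u t) := by
    intro k hk
    obtain ⟨C, hC⟩ := hpC k hk
    exact mul_dens_int hh hu.meas hu.adm (hpm k hk) (hp0 k hk) hC (hR' k hk)
  have hnn := hu.dens_nonneg h hh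
  have h1 : m * I.card * (Real.pi * h) ≤ ∑ k ∈ I, ∫ t, p k t * dens h u t := by
    have := Finset.sum_le_sum hm
    rw [Finset.sum_const, nsmul_eq_mul] at this
    linarith
  have h2 : ∑ k ∈ I, ∫ t, p k t * dens h u t = ∫ t, ∑ k ∈ I, p k t * dens h u t :=
    (integral_finsetSum I hint).symm
  have h3 : ∫ t, ∑ k ∈ I, p k t * dens h u t ≤ ∫ t in W, C' * dens h u t := by
    rw [← integral_indicator hW]
    apply integral_mono_ae
    · exact integrable_finsetSum I hint
    · exact (integrable_indicator_iff hW).2 ((dens_intOn hh hu.meas hu.adm hWb).const_mul C')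
    · filter_upwards [hnn] with t ht
      by_cases htW : t ∈ W
      · simp only [Set.indicator_of_mem htW]
        rw [← Finset.sum_mul]
        exact mul_le_mul_of_nonneg_right (hsum t) ht
      · simp only [Set.indicator_of_notMem htW]
        apply le_of_eq
        apply Finset.sum_eq_zero
        intro k hk
        rw [hpW k hk t htW, zero_mul]
  have h4 : ∫ t in W, C' * dens h u t = C' * ∫ t in W, dens h u t := integral_const_mul _ _
  unfold mu
  rw [div_le_div_iff₀ hC' hπ]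
  calc m * I.card * (Real.pi * h) ≤ C' * ∫ t in W, dens h u t := by
        rw [← h4]; exact h1.trans (h2.le.trans h3)
    _ = (∫ t in W, dens h u t) * C' := by ring

end Pool.Agent.W_be22fd_h63
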