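import Pool.Agent.W_be22fd_h63.Combine

/-!
The test function of a good phase.
-/

namespace Pool.Agent.W_be22fd_h63

open MeasureTheory Pool.Agent.W_be22fd_h78 Filter Topology

lemma len_pos {K : ℕ} {b : ℕ → ℝ} (hb : ∀ k < K, b k < b (k + 1)) {k : ℕ} (hk : k < K) :
    0 < len b k := by
  unfold len
  linarith [hb k hk]

lemma b_mono {K : ℕ} {b : ℕ → ℝ} (hb : ∀ k < K, b k < b (k + 1)) {i j : ℕ} (hij : i ≤ j)
    (hj : j ≤ K) : b i ≤ b j := by
  induction j, hij using Nat.le_induction with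
  | base => exact le_rfl
  | succ n hn ih => exact (ih (by omega)).trans (hb n (by omega)).le

lemma b_lt {K : ℕ} {b : ℕ → ℝ} (hb : ∀ k < K, b k < b (k + 1)) {i j : ℕ} (hij : i < j)
    (hj : j ≤ K) : b i < b j :=
  (hb i (by omega)).trans_le (b_mono hb hij hj)

lemma case_good {Λ e0 N : ℝ} (hΛ : 100 ≤ Λ) (he0 : e0 = 1 / (8 * Λ ^ 2)) (hN : 0 ≤ N)
    (ht : T_transfer) (hl : T_local)
    {K : ℕ} {b : ℕ → ℝ} {u : ℝ → ℝ} {s : ℕ → ℝ} {v1 v2 : ℕ → ℝ → ℝ}
    (hb : ∀ k < K, b k < b (k + 1)) (hu : Pot u) {k : ℕ}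
    (hs : b (k + 1) ≤ s k ∧ s k ≤ b (k + 2))
    (h1 : Child e0 N b u k (s k) (v1 k) true) (h2 : Child e0 N b u k (s k) (v2 k) false)
    (hk : GoodPh (Λ ^ 2) K b k) :
    ∀ᶠ h in 𝓝[>] (0 : ℝ),
      HasTest h (1 / (10000 * Λ ^ 6) * N) u (Set.Icc (b (k - 1)) (b (k + 2))) := by
  obtain ⟨hk1, hkK, hA1, hA2⟩ := hk
  have hlk := len_pos hb (k := k) (by omega)
  have hlk1 := len_pos hb (k := k + 1) (by omega)
  set A := Λ ^ 2 with hAdef
  have hA : 10000 ≤ A := by nlinarith
  set w := len b k / A with hw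
  have hwpos : 0 < w := by positivity
  have hAw : len b k = A * w := by rw [hw]; field_simp
  have hw1 : w ≤ len b (k - 1) := by
    rw [hw, div_le_iff₀ (by linarith)]; linarith
  have hw2 : w ≤ len b (k + 1) := by
    rw [hw, div_le_iff₀ (by linarith)]; linarith
  have e1 : len b k = b (k + 1) - b k := rfl
  have e2 : len b (k + 1) = b (k + 2) - b (k + 1) := rfl
  have e3 : len b (k - 1) = b k - b (k - 1) := by
    unfold len
    rw [show k - 1 + 1 = k by omega]
  -- the uniform part of the argument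
  have key : ∀ (x : ℝ) (v : ℝ → ℝ) (bb : Bool), Child e0 N b u k (s k) v bb →
      b (k + 1) + w / 8 ≤ x → x ≤ b (k + 1) + 3 * w / 8 →
      (∀ t ∈ Set.Icc (x - 2 * (w / 16)) (x + 2 * (w / 16)),
        t ∈ (if bb then Set.Icc (b (k + 1)) (s k) else Set.Icc (s k) (b (k + 2)))) →
      ∀ᶠ h in 𝓝[>] (0 : ℝ),
        HasTest h (1 / (10000 * Λ ^ 6) * N) u (Set.Icc (b (k - 1)) (b (k + 2))) := by
    intro x v bb hch hx1 hx2 hT
    obtain ⟨x', y', hx', hxy', hy', hF⟩ := hch.mass
    have hsmall : ∀ᶠ h in 𝓝[>] (0 : ℝ), h < w / 16 :=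
      (eventually_lt_nhds (by positivity)).filter_mono nhdsWithin_le_nhds
    filter_upwards [hF, hsmall, self_mem_nhdsWithin] with h hF' hh hh0
    have hh0' : 0 < h := hh0
    obtain ⟨p, hp, hp0, hpl⟩ := hl h (b k - w / 2) (b (k + 1) + w) x (w / 16) hh0' hh.le
      (by linarith) (by linarith)
    refine hasTest_of hh0' (by positivity) (by norm_num : (4 : ℝ) ≤ 8) ht hu hch.pot hp hch.le ?_
      (fat_meas e0 x' y') (fat_bdd e0 x' y') ?_ hF'.1 ?_
    · filter_upwards [hch.eq] with t ht' htT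
      exact ht' (hT t htT)
    · intro t ht'
      have hfat : e0 * (y' - x') ≤ w / 8 := by
        have : y' - x' ≤ len b k := by rw [e1]; linarith
        rw [he0, hw]
        calc 1 / (8 * A) * (y' - x') ≤ 1 / (8 * A) * len b k :=
              mul_le_mul_of_nonneg_left this (by positivity)
          _ = len b k / A / 8 := by field_simp
      obtain ⟨ht1, ht2⟩ := ht'
      have ht1' : b k - w / 8 ≤ t := by linarith
      have ht2' : t ≤ b (k + 1) + w / 8 := by linarith
      refine le_trans ?_ (hpl t ⟨by linarith, by linarith⟩)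
      have hbk : b (k + 1) = b k + A * w := by rw [← hAw, e1]; ring
      have a1 : 3 * w / 8 ≤ t - (b k - w / 2) := by linarith
      have a2 : 7 * w / 8 ≤ b (k + 1) + w - t := by linarith
      have a3 : |t - x| ≤ 3 / 2 * A * w := by
        rw [abs_le]
        constructor <;> nlinarith
      have a4 : (t - x) ^ 2 ≤ (3 / 2 * A * w) ^ 2 := by
        rw [← sq_abs (t - x)]
        exact pow_le_pow_left₀ (abs_nonneg _) a3 2
      have a5 : x - (b k - w / 2) ≤ 2 * A * w := by nlinarith
      have a5' : 0 < x - (b k - w / 2) := by nlinarith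
      have a6 : b (k + 1) + w - x ≤ w := by linarith
      have a6' : 0 < b (k + 1) + w - x := by linarith
      rw [div_le_div_iff₀ (by positivity) (by positivity)]
      have b1 : (3 * w / 8) * (7 * w / 8) ≤
          (t - (b k - w / 2)) * (b (k + 1) + w - t) :=
        mul_le_mul a1 a2 (by positivity) (by linarith)
      have b2 : (t - x) ^ 2 + (w / 16) ^ 2 ≤ 4 * (A * w) ^ 2 := by
        have : (w / 16) ^ 2 ≤ (A * w) ^ 2 := by
          apply pow_le_pow_left₀ (by positivity)
          nlinarith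
        nlinarith
      have b3 : (x - (b k - w / 2)) * (b (k + 1) + w - x) ≤ 2 * A * w * w :=
        mul_le_mul a5 a6 a6'.le (by positivity)
      have b4 : ((t - x) ^ 2 + (w / 16) ^ 2) * ((x - (b k - w / 2)) * (b (k + 1) + w - x)) ≤
          4 * (A * w) ^ 2 * (2 * A * w * w) :=
        mul_le_mul b2 b3 (mul_pos a5' a6').le (by positivity)
      have b5 : (w / 16) ^ 2 * ((3 * w / 8) * (7 * w / 8)) ≤
          (w / 16) ^ 2 * ((t - (b k - w / 2)) * (b (k + 1) + w - t)) :=
        mul_le_mul_of_nonneg_left b1 (by positivity)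
      have hΛ6 : Λ ^ 6 = A ^ 3 := by rw [hAdef]; ring
      rw [hΛ6]
      have b6 := mul_le_mul_of_nonneg_right b5 (by positivity : (0 : ℝ) ≤ 10000 * A ^ 3)
      have b7 : 4 * (A * w) ^ 2 * (2 * A * w * w) ≤
          (w / 16) ^ 2 * ((3 * w / 8) * (7 * w / 8)) * (10000 * A ^ 3) := by
        have : 0 ≤ A ^ 3 * w ^ 4 := by positivity
        nlinarith
      linarith
    · intro t ht'
      apply hp0
      intro hcon
      apply ht'
      constructor
      · have := hcon.1
        linarith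
      · have := hcon.2
        linarith
  rcases le_total (b (k + 1) + w / 4) (s k) with hc | hc
  · apply key (b (k + 1) + w / 8) (v1 k) true h1 le_rfl (by linarith)
    intro t ht'
    simp only [if_true]
    exact ⟨by linarith [ht'.1], by linarith [ht'.2]⟩
  · apply key (b (k + 1) + 3 * w / 8) (v2 k) false h2 (by linarith) le_rfl
    intro t ht'
    simp only [Bool.false_eq_true, if_false]
    exact ⟨by linarith [ht'.1], by linarith [ht'.2]⟩

end Pool.Agent.W_be22fd_h63
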