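import Pool.Agent.W_be22fd_h63.Basic

/-!
Summation of test functions with sparse territories.
-/

namespace Pool.Agent.W_be22fd_h63

open MeasureTheory Pool.Agent.W_be22fd_h78 Filter Topology

lemma Forced.mono' {e h a b g g' : ℝ} {u : ℝ → ℝ} (H : Forced e h u a b g) (hg : g' ≤ g) :
    Forced e h u a b g' :=
  ⟨hg.trans H.1, fun y1 y2 hY => hg.trans (H.2 y1 y2 hY)⟩

/-- what we need from the test function of one phase -/
def HasTest (h m : ℝ) (u : ℝ → ℝ) (Terr : Set ℝ) : Prop :=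
  ∃ p : ℝ → ℝ, Measurable p ∧ (∀ t, 0 ≤ p t) ∧ (∀ t, p t ≤ 8) ∧ (∀ t, t ∉ Terr → p t = 0) ∧
    m * (Real.pi * h) ≤ ∫ t, p t * dens h u t

open Classical in
lemma combine_fixed {h m : ℝ} (hh : 0 < h) {u : ℝ → ℝ} (hu : Pot u) {C : ℕ} {I : Finset ℕ}
    {Terr : ℕ → Set ℝ} {W : Set ℝ} (hW : MeasurableSet W) (hWb : Bornology.IsBounded W)
    (hov : ∀ x, ∀ I' ⊆ I, (∀ k ∈ I', x ∈ Terr k) → I'.card ≤ C)
    (hTW : ∀ k ∈ I, Terr k ⊆ W) (hp : ∀ k ∈ I, HasTest h m u (Terr k)) :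
    m * I.card / (8 * ((C : ℝ) + 1)) ≤ mu h u W := by
  choose! p hpm hp0 hp8 hpT hpi using hp
  apply tests_upper hh hu (I := I) (p := p) hW hWb (by positivity) hpm hp0
    (fun k hk => ⟨8, hp8 k hk⟩) ?_ ?_ hpi
  · intro t
    have h1 : ∑ k ∈ I, p k t ≤ ∑ k ∈ I, if t ∈ Terr k then (8 : ℝ) else 0 := by
      apply Finset.sum_le_sum
      intro k hk
      split_ifs with ht
      · exact hp8 k hk t
      · exact (hpT k hk t ht).le
    rw [← Finset.sum_filter, Finset.sum_const, nsmul_eq_mul] at h1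
    have h2 : (I.filter (fun k => t ∈ Terr k)).card ≤ C :=
      hov t _ (Finset.filter_subset _ _) (fun k hk => (Finset.mem_filter.1 hk).2)
    have h3 : ((I.filter (fun k => t ∈ Terr k)).card : ℝ) ≤ C := by exact_mod_cast h2
    linarith
  · intro k hk t ht
    exact hpT k hk t (fun h => ht (hTW k hk h))

open Classical in
lemma combine {m e : ℝ} (hm : 0 ≤ m) {u : ℝ → ℝ} (hu : Pot u) {C K : ℕ} {b : ℕ → ℝ}
    {I : Finset ℕ} {Terr : ℕ → Set ℝ} (hS : Sparse C K b I Terr)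
    (hT : ∀ k ∈ I, Terr k ⊆ fat e (b 0) (b K))
    (hp : ∀ k ∈ I, ∀ᶠ h in 𝓝[>] (0 : ℝ), HasTest h m u (Terr k)) :
    ∀ᶠ h in 𝓝[>] (0 : ℝ),
      Forced e h u (b 0) (b K) (m * ((I.card : ℝ) - C) / (8 * ((C : ℝ) + 1))) := by
  have hall : ∀ᶠ h in 𝓝[>] (0 : ℝ), ∀ k ∈ I, HasTest h m u (Terr k) :=
    (eventually_all_finset I).2 hp
  filter_upwards [hall, self_mem_nhdsWithin] with h hh1 hh0
  have hh0' : 0 < h := hh0
  have hC : (0 : ℝ) < 8 * ((C : ℝ) + 1) := by positivity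
  constructor
  · refine le_trans ?_ (combine_fixed hh0' hu (fat_meas _ _ _) (fat_bdd _ _ _) hS.1 hT hh1)
    apply div_le_div_of_nonneg_right _ hC.le
    apply mul_le_mul_of_nonneg_left _ hm
    have : (0 : ℝ) ≤ C := by positivity
    linarith
  · intro y1 y2 hY
    set I' := I.filter (fun k => ¬ (Terr k ∩ Set.Icc y1 y2).Nonempty) with hI'
    have hsub : I' ⊆ I := Finset.filter_subset _ _
    have hcard : ((I.card : ℝ) - C) ≤ I'.card := by
      have h1 := Finset.card_filter_add_card_filter_not (s := I)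
        (fun k => (Terr k ∩ Set.Icc y1 y2).Nonempty)
      have h2 : (I.filter (fun k => (Terr k ∩ Set.Icc y1 y2).Nonempty)).card ≤ C :=
        hS.2 y1 y2 hY _ (Finset.filter_subset _ _) (fun k hk => (Finset.mem_filter.1 hk).2)
      have h3 : I.card ≤ I'.card + C := by
        rw [hI']
        omega
      have h4 : (I.card : ℝ) ≤ I'.card + C := by exact_mod_cast h3
      linarith
    refine le_trans ?_ (combine_fixed (m := m) hh0' hu
      ((fat_meas e (b 0) (b K)).diff measurableSet_Icc)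
      ((fat_bdd e (b 0) (b K)).subset Set.diff_subset) (I := I') (Terr := Terr) (C := C) ?_ ?_ ?_)
    · exact div_le_div_of_nonneg_right (mul_le_mul_of_nonneg_left hcard hm) hC.le
    · intro x I'' hI'' hx
      exact hS.1 x I'' (hI''.trans hsub) hx
    · intro k hk x hx
      refine ⟨hT k (hsub hk) hx, fun hxY => ?_⟩
      exact (Finset.mem_filter.1 hk).2 ⟨x, hx, hxY⟩
    · intro k hk
      exact hh1 k (hsub hk)

/-- one child provides a test -/
lemma hasTest_of {h δ N : ℝ} (hh : 0 < h) (hδ : 0 ≤ δ) {u v p : ℝ → ℝ} {T S Terr : Set ℝ} {C : ℝ}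
    (hC : C ≤ 8) (ht : T_transfer) (hu : Pot u) (hv : Pot v) (hp : IsTest h p T C)
    (hle : ∀ᵐ t, v t ≤ u t) (heq : ∀ᵐ t, t ∈ T → v t = u t) (hS : MeasurableSet S)
    (hSb : Bornology.IsBounded S) (hpS : ∀ t ∈ S, δ ≤ p t) (hN : N ≤ mu h v S)
    (hT : ∀ t, t ∉ Terr → p t = 0) : HasTest h (δ * N) u Terr :=
  ⟨p, hp.meas, hp.nonneg, fun t => (hp.le t).trans hC, hT,
    test_lower hh hδ ht hu hv hp hle heq hS hSb hpS hN⟩

end Pool.Agent.W_be22fd_h63
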